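import Pool.Agent.Y184.RB.Base2

set_option autoImplicit false

/-!
# Calculus of the Levi form and elementary operations
-/

open Set Topology Filter
open scoped ContDiff Manifold

namespace Pool.Agent.Y77.RB

open Pool.Agent.Y184.RB

variable {n : ℕ}

theorem lapline {L : ℂ → ℝ} (hL : ContDiffAt ℝ 2 L 0) (e : ℂ) {ψ : ℝ → ℝ} {c : ℝ}
    (h1 : ∀ᶠ t in 𝓝 (0 : ℝ), HasDerivAt (fun s : ℝ => L (s • e)) (ψ t) t)
    (h2 : HasDerivAt ψ c 0) : iteratedFDeriv ℝ 2 L 0 ![e, e] = c := by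
  rw [iteratedFDeriv_two_apply]
  simp only [Matrix.cons_val_zero, Matrix.cons_val_one]
  have hdiff : ∀ᶠ ζ in 𝓝 (0 : ℂ), DifferentiableAt ℝ L ζ := by
    have h := hL.eventually (by simp)
    filter_upwards [h] with ζ hζ
    exact hζ.differentiableAt (by norm_num)
  have hf : DifferentiableAt ℝ (fderiv ℝ L) 0 := by
    have : ContDiffAt ℝ 1 (fderiv ℝ L) 0 := hL.fderiv_right (by norm_num)
    exact this.differentiableAt (by norm_num)
  have hline : ∀ t : ℝ, HasDerivAt (fun s : ℝ => s • e) e t := by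
    intro t
    simpa using (hasDerivAt_id t).smul_const e
  have ht0 : Tendsto (fun s : ℝ => s • e) (𝓝 0) (𝓝 (0 : ℂ)) := by
    have := (hline 0).continuousAt.tendsto
    simpa using this
  have h3 : ψ =ᶠ[𝓝 0] fun t => fderiv ℝ L (t • e) e := by
    filter_upwards [h1, ht0.eventually hdiff] with t ht htd
    have h4 : HasDerivAt (fun s : ℝ => L (s • e)) (fderiv ℝ L (t • e) e) t :=
      htd.hasFDerivAt.comp_hasDerivAt t (hline t)
    exact ht.unique h4
  have h5 : HasDerivAt (fun t : ℝ => fderiv ℝ L (t • e) e) (fderiv ℝ (fderiv ℝ L) 0 e e) 0 := by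
    have h6 : HasFDerivAt (fderiv ℝ L) (fderiv ℝ (fderiv ℝ L) 0) ((0 : ℝ) • e) := by
      rw [zero_smul]; exact hf.hasFDerivAt
    have h7 : HasDerivAt (fun t : ℝ => fderiv ℝ L (t • e)) (fderiv ℝ (fderiv ℝ L) 0 e) 0 :=
      h6.comp_hasDerivAt (0 : ℝ) (hline 0)
    have h8 := (ContinuousLinearMap.apply ℝ ℝ e).hasFDerivAt.comp_hasDerivAt (0 : ℝ) h7
    exact h8
  exact ((h2.congr_of_eventuallyEq h3.symm).unique h5).symm

/-- the Laplacian of `ρ ∘ f` for a holomorphic disc `f` -/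
theorem lap_disc {ρ : En n → ℝ} {f : ℂ → En n} (hf : ContDiffAt ℂ ω f 0)
    (hρ : ContDiffAt ℝ 2 ρ (f 0)) :
    Laplacian.laplacian (fun ζ : ℂ => ρ (f ζ)) 0 =
      fderiv ℝ (fderiv ℝ ρ) (f 0) (deriv f 0) (deriv f 0) +
      fderiv ℝ (fderiv ℝ ρ) (f 0) (Complex.I • deriv f 0) (Complex.I • deriv f 0) := by
  have hfa : AnalyticAt ℂ f 0 := by
    rw [← contDiffWithinAt_univ, contDiffWithinAt_omega_iff_analyticWithinAt,
      analyticWithinAt_univ] at hf
    exact hf
  have hfR : ContDiffAt ℝ 2 f 0 := (hf.of_le le_top).restrict_scalars ℝ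
  have hL : ContDiffAt ℝ 2 (fun ζ : ℂ => ρ (f ζ)) 0 := hρ.comp (0 : ℂ) hfR
  have hf1 : ∀ᶠ ζ in 𝓝 (0 : ℂ), HasDerivAt f (deriv f ζ) ζ := by
    filter_upwards [hfa.eventually_analyticAt] with ζ hζ
    exact hζ.differentiableAt.hasDerivAt
  have hf2 : HasDerivAt (deriv f) (deriv (deriv f) 0) 0 := hfa.deriv.differentiableAt.hasDerivAt
  have hρ1 : ∀ᶠ ζ in 𝓝 (0 : ℂ), DifferentiableAt ℝ ρ (f ζ) := by
    have h := hρ.eventually (by simp)
    have h2 := hfa.continuousAt.tendsto.eventually h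
    filter_upwards [h2] with ζ hζ
    exact hζ.differentiableAt (by norm_num)
  have hρ2 : HasFDerivAt (fderiv ℝ ρ) (fderiv ℝ (fderiv ℝ ρ) (f 0)) (f 0) := by
    have : ContDiffAt ℝ 1 (fderiv ℝ ρ) (f 0) := hρ.fderiv_right (by norm_num)
    exact (this.differentiableAt (by norm_num)).hasFDerivAt
  have hline : ∀ (e : ℂ) (t : ℝ), HasDerivAt (fun s : ℝ => s • e) e t := by
    intro e t
    simpa using (hasDerivAt_id t).smul_const e
  have ht0 : ∀ e : ℂ, Tendsto (fun s : ℝ => s • e) (𝓝 0) (𝓝 (0 : ℂ)) := by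
    intro e
    have := (hline e 0).continuousAt.tendsto
    simpa using this
  have main : ∀ e : ℂ, iteratedFDeriv ℝ 2 (fun ζ : ℂ => ρ (f ζ)) 0 ![e, e] =
      fderiv ℝ (fderiv ℝ ρ) (f 0) (e • deriv f 0) (e • deriv f 0) +
        fderiv ℝ ρ (f 0) (e • (e • deriv (deriv f) 0)) := by
    intro e
    apply lapline hL e (ψ := fun s : ℝ => fderiv ℝ ρ (f (s • e)) (e • deriv f (s • e)))
    · filter_upwards [(ht0 e).eventually hf1, (ht0 e).eventually hρ1] with t h1 h2
      have h3 : HasDerivAt (fun s : ℝ => f (s • e)) (e • deriv f (t • e)) t :=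
        HasDerivAt.scomp t h1 (hline e t)
      exact h2.hasFDerivAt.comp_hasDerivAt t h3
    · have e0 : (0 : ℝ) • e = 0 := zero_smul _ _
      have h1 : HasDerivAt (fun s : ℝ => f (s • e)) (e • deriv f 0) 0 := by
        have h2 : HasDerivAt f (deriv f 0) ((0 : ℝ) • e) := by
          rw [e0]; exact hf1.self_of_nhds
        exact HasDerivAt.scomp (0 : ℝ) h2 (hline e 0)
      have h3 : HasDerivAt (fun s : ℝ => fderiv ℝ ρ (f (s • e)))
          (fderiv ℝ (fderiv ℝ ρ) (f 0) (e • deriv f 0)) 0 := by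
        have h4 : HasFDerivAt (fderiv ℝ ρ) (fderiv ℝ (fderiv ℝ ρ) (f 0)) (f ((0 : ℝ) • e)) := by
          rw [e0]; exact hρ2
        exact h4.comp_hasDerivAt (0 : ℝ) h1
      have h5 : HasDerivAt (fun s : ℝ => e • deriv f (s • e)) (e • (e • deriv (deriv f) 0)) 0 := by
        have h6 : HasDerivAt (deriv f) (deriv (deriv f) 0) ((0 : ℝ) • e) := by
          rw [e0]; exact hf2
        exact (HasDerivAt.scomp (0 : ℝ) h6 (hline e 0)).const_smul e
      have h7 := h3.clm_apply h5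
      rw [e0] at h7
      exact h7
  rw [InnerProductSpace.laplacian_eq_iteratedFDeriv_complexPlane]
  simp only
  rw [main 1, main Complex.I]
  have h1 : Complex.I • (Complex.I • deriv (deriv f) 0) = -(deriv (deriv f) 0) := by
    rw [smul_smul, Complex.I_mul_I, neg_smul, one_smul]
  rw [h1, one_smul, one_smul, one_smul, map_neg]
  ring

theorem line_an (z v : En n) : ContDiffAt ℂ ω (fun ζ : ℂ => z + ζ • v) 0 :=
  contDiffAt_const.add (contDiffAt_id.smul contDiffAt_const)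

theorem line_deriv (z v : En n) : deriv (fun ζ : ℂ => z + ζ • v) 0 = v := by
  have h1 : HasDerivAt (fun ζ : ℂ => z + ζ • v) v 0 := by
    simpa using ((hasDerivAt_id (0 : ℂ)).smul_const v).const_add z
  exact h1.deriv

/-- the Levi form in terms of the second derivative -/
theorem lev_eq {ρ : En n → ℝ} {z : En n} (v : En n) (hρ : ContDiffAt ℝ 2 ρ z) :
    lev ρ z v = fderiv ℝ (fderiv ℝ ρ) z v v +
      fderiv ℝ (fderiv ℝ ρ) z (Complex.I • v) (Complex.I • v) := by
  have e0 : z + (0 : ℂ) • v = z := by rw [zero_smul, add_zero]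
  have h := lap_disc (ρ := ρ) (line_an z v) (by
    rw [e0]; exact hρ)
  rw [line_deriv] at h
  change _ = fderiv ℝ (fderiv ℝ ρ) (z + (0 : ℂ) • v) v v +
      fderiv ℝ (fderiv ℝ ρ) (z + (0 : ℂ) • v) (Complex.I • v) (Complex.I • v) at h
  rw [e0] at h
  exact h

/-- calculus of the Levi form -/
theorem t_LevN : StLevN := by
  intro n
  refine ⟨?_, ?_, ?_⟩
  · intro ρ f hf hρ
    rw [lap_disc hf hρ, lev_eq _ hρ]
  · intro ρ z v hρ
    have h2 : (2 : WithTop ℕ∞) ≤ ∞ := WithTop.coe_le_coe.2 (le_top : (2 : ℕ∞) ≤ ⊤)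
    have h1 : ∀ᶠ p in 𝓝 (z, v), lev ρ p.1 p.2 = fderiv ℝ (fderiv ℝ ρ) p.1 p.2 p.2 +
        fderiv ℝ (fderiv ℝ ρ) p.1 (Complex.I • p.2) (Complex.I • p.2) := by
      have h3 : ∀ᶠ p : En n × En n in 𝓝 (z, v), ContDiffAt ℝ ∞ ρ p.1 :=
        (continuous_fst.tendsto (z, v)).eventually hρ
      filter_upwards [h3] with p hp
      exact lev_eq _ (hp.of_le h2)
    have h4 : ContDiffAt ℝ 1 (fderiv ℝ ρ) z := (hρ.self_of_nhds.of_le h2).fderiv_right (by norm_num)
    have h5 : ContinuousAt (fderiv ℝ (fderiv ℝ ρ)) z := by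
      have h6 : ContDiffAt ℝ 0 (fderiv ℝ (fderiv ℝ ρ)) z := h4.fderiv_right (by norm_num)
      exact h6.continuousAt
    have h7 : ContinuousAt (fun p : En n × En n => fderiv ℝ (fderiv ℝ ρ) p.1) (z, v) :=
      ContinuousAt.comp (g := fderiv ℝ (fderiv ℝ ρ)) (f := fun p : En n × En n => p.1) h5
        continuousAt_fst
    have h8 : ContinuousAt (fun p : En n × En n => Complex.I • p.2) (z, v) :=
      Continuous.continuousAt (by fun_prop)
    have h9 : ContinuousAt (fun p : En n × En n => fderiv ℝ (fderiv ℝ ρ) p.1 p.2 p.2 +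
        fderiv ℝ (fderiv ℝ ρ) p.1 (Complex.I • p.2) (Complex.I • p.2)) (z, v) :=
      ((h7.clm_apply continuousAt_snd).clm_apply continuousAt_snd).add
        ((h7.clm_apply h8).clm_apply h8)
    exact h9.congr (h1.mono fun p hp => hp.symm)
  · intro ρ z v c hρ
    rw [lev_eq _ hρ, lev_eq _ hρ]
    have e1 : c • v = c.re • v + c.im • (Complex.I • v) := by
      funext i
      simp only [Pi.smul_apply, Pi.add_apply, smul_eq_mul, Complex.real_smul]
      conv_lhs => rw [← Complex.re_add_im c]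
      ring
    have e2 : Complex.I • (c • v) = c.re • (Complex.I • v) - c.im • v := by
      funext i
      simp only [Pi.smul_apply, Pi.sub_apply, smul_eq_mul, Complex.real_smul]
      conv_lhs => rw [← Complex.re_add_im c]
      linear_combination ((c.im : ℂ) * v i) * Complex.I_mul_I
    have e3 : ‖c‖ ^ 2 = c.re ^ 2 + c.im ^ 2 := by
      rw [Complex.sq_norm, Complex.normSq_apply]
      ring
    rw [e2, e1, e3]
    simp only [map_add, map_sub, map_smul, add_apply, sub_apply, smul_apply,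
      smul_eq_mul]
    ring

theorem lev_zero (ρ : En n → ℝ) (z : En n) : lev ρ z 0 = 0 := by
  unfold lev
  simp only [smul_zero, add_zero]
  have h := InnerProductSpace.laplacian_eq_iteratedFDeriv_complexPlane (fun _ : ℂ => ρ z)
  rw [h]
  simp [iteratedFDeriv_const_of_ne (𝕜 := ℝ) (n := 2) (by norm_num) (ρ z)]

/-! ### elementary operations -/

section

variable {Y : Type} [TopologicalSpace Y] [ChartedSpace (En n) Y]

/-- holomorphic discs are real smooth -/
theorem real_disc {f : ℂ → Y} (h : IsDisc n f) : ContMDiffAt 𝓘(ℝ, ℂ) 𝓘(ℝ, En n) ∞ f 0 := by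
  unfold IsDisc at h
  rw [contMDiffAt_iff] at h ⊢
  refine ⟨h.1, ?_⟩
  have h2 : ContDiffWithinAt ℝ ω _ _ _ := h.2.restrict_scalars ℝ
  exact h2.of_le le_top

theorem comp_disc {f : ℂ → Y} (h : IsDisc n f) {u : Y → ℝ}
    (hu : ContMDiffAt 𝓘(ℝ, En n) 𝓘(ℝ, ℝ) ∞ u (f 0)) :
    ContDiffAt ℝ 2 (fun ζ : ℂ => u (f ζ)) 0 := by
  have h1 : ContMDiffAt 𝓘(ℝ, ℂ) 𝓘(ℝ, ℝ) ∞ (u ∘ f) 0 := ContMDiffAt.comp (0 : ℂ) hu (real_disc h)
  have h2 : ContDiffAt ℝ ∞ (u ∘ f) 0 := contMDiffAt_iff_contDiffAt.1 h1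
  exact h2.of_le (WithTop.coe_le_coe.2 (le_top : (2 : ℕ∞) ≤ ⊤))

/-- the Laplacian along a disc with vanishing derivative -/
theorem lap_zero {f : ℂ → Y} (h : IsDisc n f) (h0 : mfderiv 𝓘(ℂ, ℂ) 𝓘(ℂ, En n) f 0 = 0)
    {u : Y → ℝ} (hu : ContMDiffAt 𝓘(ℝ, En n) 𝓘(ℝ, ℝ) ∞ u (f 0)) :
    Laplacian.laplacian (fun ζ : ℂ => u (f ζ)) 0 = 0 := by
  obtain ⟨e, hee⟩ : ∃ e, e = chartAt (En n) (f 0) := ⟨_, rfl⟩
  have hF : ContDiffAt ℂ ω (fun ζ => e (f ζ)) 0 := by
    have h1 := (contMDiffAt_iff.1 h).2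
    simp only [extChartAt, OpenPartialHomeomorph.extend_coe, OpenPartialHomeomorph.extend_coe_symm,
      modelWithCornersSelf_coe, modelWithCornersSelf_coe_symm, chartAt_self_eq,
      OpenPartialHomeomorph.refl_symm, OpenPartialHomeomorph.refl_apply, Function.comp_def,
      Set.range_id, id, ← hee, contDiffWithinAt_univ] at h1
    exact h1
  have hρ : ContDiffAt ℝ ∞ (fun z => u (e.symm z)) (e (f 0)) := by
    have h1 := (contMDiffAt_iff.1 hu).2
    simp only [extChartAt, OpenPartialHomeomorph.extend_coe, OpenPartialHomeomorph.extend_coe_symm,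
      modelWithCornersSelf_coe, modelWithCornersSelf_coe_symm, chartAt_self_eq,
      OpenPartialHomeomorph.refl_symm, OpenPartialHomeomorph.refl_apply, Function.comp_def,
      Set.range_id, id, ← hee, contDiffWithinAt_univ] at h1
    exact h1
  have hd : deriv (fun ζ => e (f ζ)) 0 = 0 := by
    have h1 : HasMFDerivAt 𝓘(ℂ, ℂ) 𝓘(ℂ, En n) f 0 (mfderiv 𝓘(ℂ, ℂ) 𝓘(ℂ, En n) f 0) :=
      (ContMDiffAt.mdifferentiableAt h (by simp)).hasMFDerivAt
    rw [h0] at h1
    have h2 := h1.2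
    have h3 : HasFDerivAt (fun ζ => e (f ζ)) (0 : ℂ →L[ℂ] En n) 0 := by
      simp only [writtenInExtChartAt, extChartAt, OpenPartialHomeomorph.extend_coe,
        OpenPartialHomeomorph.extend_coe_symm,
        modelWithCornersSelf_coe, modelWithCornersSelf_coe_symm, chartAt_self_eq,
        OpenPartialHomeomorph.refl_symm, OpenPartialHomeomorph.refl_apply, Function.comp_def,
        Set.range_id, id, ← hee] at h2
      exact hasFDerivWithinAt_univ.1 h2
    have h4 := h3.hasDerivAt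
    simpa using h4.deriv
  have he : (fun ζ : ℂ => u (f ζ)) =ᶠ[𝓝 0] (fun ζ : ℂ => u (e.symm (e (f ζ)))) := by
    have h1 : ∀ᶠ ζ in 𝓝 (0 : ℂ), f ζ ∈ e.source :=
      h.continuousAt.eventually (e.open_source.mem_nhds (hee ▸ mem_chart_source (En n) (f 0)))
    filter_upwards [h1] with ζ hζ
    rw [e.left_inv hζ]
  rw [(InnerProductSpace.laplacian_congr_nhds he).self_of_nhds]
  have h5 := (t_LevN n).1 (fun z => u (e.symm z)) (fun ζ => e (f ζ)) hF
    (hρ.of_le (WithTop.coe_le_coe.2 (le_top : (2 : ℕ∞) ≤ ⊤)))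
  rw [h5, hd]
  exact lev_zero _ _

theorem val_nonneg {Ω : Form n Y} (hΩ : Ω.IsKahler) {f : ℂ → Y} (h : IsDisc n f) :
    0 ≤ Ω.val f := by
  by_cases h0 : mfderiv 𝓘(ℂ, ℂ) 𝓘(ℂ, En n) f 0 = 0
  · exact (lap_zero h h0 (Ω.smooth (f 0)).self_of_nhds).ge
  · exact (hΩ f h h0).le

theorem lap_congr {f : ℂ → Y} (h : IsDisc n f) {u v : Y → ℝ} (huv : u =ᶠ[𝓝 (f 0)] v) :
    Laplacian.laplacian (fun ζ : ℂ => u (f ζ)) 0 = Laplacian.laplacian (fun ζ : ℂ => v (f ζ)) 0 := by
  have h1 : (fun ζ : ℂ => u (f ζ)) =ᶠ[𝓝 0] (fun ζ : ℂ => v (f ζ)) :=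
    h.continuousAt.eventually huv
  exact (InnerProductSpace.laplacian_congr_nhds h1).self_of_nhds

theorem lap_const (b : ℝ) : Laplacian.laplacian (fun _ : ℂ => b) 0 = 0 := by
  rw [InnerProductSpace.laplacian_eq_iteratedFDeriv_complexPlane]
  simp [iteratedFDeriv_const_of_ne (𝕜 := ℝ) (n := 2) (by norm_num) b]

end

/-- elementary operations -/
theorem t_Op : StOp := by
  intro n Y _ _ _ Ω θ p hΩ
  refine ⟨?_, ?_, ?_, ?_⟩
  · intro c c' u hc hu
    filter_upwards [hu] with q hq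
    refine ⟨hq.1, fun f hf hfq => ?_⟩
    have h1 := hq.2 f hf hfq
    have h2 := mul_le_mul_of_nonneg_right hc (val_nonneg hΩ hf)
    exact h2.trans h1
  · intro c u v huv hu
    filter_upwards [hu, huv.eventually_nhds] with q hq hq2
    refine ⟨hq.1.congr_of_eventuallyEq (hq2.mono fun x hx => hx.symm), fun f hf hfq => ?_⟩
    subst hfq
    rw [← lap_congr hf hq2]
    exact hq.2 f hf rfl
  · intro c C a b u η ha hu hη hC
    filter_upwards [hu] with q hq
    have hη' : ContMDiffAt 𝓘(ℝ, En n) 𝓘(ℝ, ℝ) ∞ η q := hη q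
    refine ⟨(hq.1.add (contMDiffAt_const.mul hη')).add contMDiffAt_const, fun f hf hfq => ?_⟩
    subst hfq
    have k1 := comp_disc hf hq.1
    have k2 := comp_disc hf hη'
    have k3 : ContDiffAt ℝ 2 (fun ζ : ℂ => a * η (f ζ)) 0 := contDiffAt_const.mul k2
    have e1 : Laplacian.laplacian (fun ζ : ℂ => u (f ζ) + a * η (f ζ) + b) 0 =
        Laplacian.laplacian (fun ζ : ℂ => u (f ζ)) 0 +
          a * Laplacian.laplacian (fun ζ : ℂ => η (f ζ)) 0 := by
      have s1 := (k1.add k3).laplacian_add (contDiffAt_const (c := b))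
      have s2 := k1.laplacian_add k3
      have s3 := InnerProductSpace.laplacian_smul a k2
      have s4 := lap_const b
      have t1 : Laplacian.laplacian (fun ζ : ℂ => u (f ζ) + a * η (f ζ) + b) 0 =
          Laplacian.laplacian (fun ζ : ℂ => u (f ζ) + a * η (f ζ)) 0 +
            Laplacian.laplacian (fun _ : ℂ => b) 0 := s1
      have t2 : Laplacian.laplacian (fun ζ : ℂ => u (f ζ) + a * η (f ζ)) 0 =
          Laplacian.laplacian (fun ζ : ℂ => u (f ζ)) 0 +
            Laplacian.laplacian (fun ζ : ℂ => a * η (f ζ)) 0 := s2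
      have t3 : Laplacian.laplacian (fun ζ : ℂ => a * η (f ζ)) 0 =
          a * Laplacian.laplacian (fun ζ : ℂ => η (f ζ)) 0 := s3
      rw [t1, t2, t3, s4, add_zero]
    rw [e1]
    have h1 := hq.2 f hf rfl
    have h2 := (abs_le.1 (hC f hf)).1
    have h3 := mul_le_mul_of_nonneg_left h2 ha
    linarith
  · intro u a hθ hu
    filter_upwards [hu.eventually_nhds] with q hq
    refine ⟨contMDiffAt_const.congr_of_eventuallyEq hq, fun f hf hfq => ?_⟩
    subst hfq
    have h1 : Laplacian.laplacian (fun ζ : ℂ => u (f ζ)) 0 =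
        Laplacian.laplacian (fun _ : ℂ => a) 0 := lap_congr hf (v := fun _ => a) hq
    rw [h1, lap_const, zero_mul, add_zero]
    exact hθ f hf

end Pool.Agent.Y77.RB
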